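import Pool.Agent.K4H79.OC.Eighteen
import Pool.Agent.R926.SC.OrientMix

set_option autoImplicit false
set_option linter.unusedSectionVars false

/-!
# Orientable five cycle double covers: a maximal chain
-/

namespace Pool.Agent.K4H79.OC

open Finset Pool.Agent.TH676.Z Pool.Agent.Y335.FL Pool.Agent.R926.SC
open Pool.Agent.H160R2.HF (OrGraph)
open Pool.Agent.H23.PS (FiveClasses)

variable {V E : Type} [Fintype V] [DecidableEq V] [Fintype E] [DecidableEq E]

/-- `F` is the union of a chain -/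
def Chn (s t : E → V) (F : Finset E) : Prop :=
  ∃ (m : ℕ) (C : Fin m → Finset E),
    (∀ i, St s t ((univ.filter (fun j => j < i)).biUnion C)
      (C i \ (univ.filter (fun j => j < i)).biUnion C)) ∧ univ.biUnion C = F

theorem chn_empty (s t : E → V) : Chn s t ∅ := by
  refine ⟨0, fun i => i.elim0, fun i => i.elim0, ?_⟩
  ext e
  rw [mem_biUnion]
  constructor
  · rintro ⟨i, -⟩
    exact i.elim0
  · intro h
    exact absurd h (notMem_empty _)

theorem chn_step (s t : E → V) (F H : Finset E) (hF : Chn s t F) (hd : Disjoint H F)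
    (hH : St s t F H) : Chn s t (F ∪ H) := by
  obtain ⟨m, C, h1, h2⟩ := hF
  set C' : Fin (m + 1) → Finset E := Fin.snoc (α := fun _ => Finset E) C H with hC'
  have hc : ∀ i : Fin m, C' i.castSucc = C i := fun i => Fin.snoc_castSucc _ _ _
  have hl : C' (Fin.last m) = H := Fin.snoc_last _ _
  have e1 : ∀ i : Fin m, (univ.filter (fun j => j < i.castSucc)).biUnion C' =
      (univ.filter (fun j => j < i)).biUnion C := by
    intro i
    ext a
    simp only [mem_biUnion, mem_filter, mem_univ, true_and]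
    constructor
    · rintro ⟨j, hj, ha⟩
      have hjm : (j : ℕ) < m := lt_trans hj i.2
      have hj' : j = (⟨j, hjm⟩ : Fin m).castSucc := rfl
      rw [hj', hc] at ha
      exact ⟨⟨j, hjm⟩, hj, ha⟩
    · rintro ⟨j, hj, ha⟩
      exact ⟨j.castSucc, hj, by rw [hc]; exact ha⟩
  have e2 : (univ.filter (fun j => j < Fin.last m)).biUnion C' = F := by
    rw [← h2]
    ext a
    simp only [mem_biUnion, mem_filter, mem_univ, true_and]
    constructor
    · rintro ⟨j, hj, ha⟩
      have hj' : j = (⟨j, hj⟩ : Fin m).castSucc := rfl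
      rw [hj', hc] at ha
      exact ⟨⟨j, hj⟩, ha⟩
    · rintro ⟨j, ha⟩
      exact ⟨j.castSucc, Fin.castSucc_lt_last j, by rw [hc]; exact ha⟩
  refine ⟨m + 1, C', fun i => ?_, ?_⟩
  · induction i using Fin.lastCases with
    | last =>
      rw [e2, hl, sdiff_eq_self_of_disjoint hd]
      exact hH
    | cast i =>
      rw [e1, hc]
      exact h1 i
  · ext a
    simp only [mem_biUnion, mem_univ, true_and, mem_union]
    constructor
    · rintro ⟨j, ha⟩
      induction j using Fin.lastCases with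
      | last =>
        rw [hl] at ha
        exact Or.inr ha
      | cast j =>
        rw [hc] at ha
        left
        rw [← h2, mem_biUnion]
        exact ⟨j, mem_univ _, ha⟩
    · rintro (ha | ha)
      · rw [← h2, mem_biUnion] at ha
        obtain ⟨j, -, hj⟩ := ha
        exact ⟨j.castSucc, by rw [hc]; exact hj⟩
      · exact ⟨Fin.last m, by rw [hl]; exact ha⟩

/-- **Reduction.**  A multigraph without bridges and without an orientable cycle double cover with
five classes has a quotient without short and without doubly connected sets of edges and with more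
than sixteen vertices of odd degree. -/
theorem reduced (s t : E → V) (hb : ∀ Y : Finset V, (crs s t Y).card ≠ 1)
    (hno : ¬ FiveClasses (⟨s, t⟩ : OrGraph V E)) :
    ∃ r : V → V,
      (∀ H : Finset E, H.Nonempty → (∀ e ∈ H, (r ∘ s) e ≠ (r ∘ t) e) → ¬ Twin (r ∘ s) (r ∘ t) H) ∧
      (∀ H : Finset E, H.Nonempty → (∀ e ∈ H, (r ∘ s) e ≠ (r ∘ t) e) → ¬ Short (r ∘ s) (r ∘ t) H) ∧
      16 < (univ.filter (fun w : V => ¬ Even (bd (r ∘ s) (r ∘ t) {w}).card)).card := by
  classical
  by_contra hcon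
  push Not at hcon
  apply hno
  obtain ⟨F, hF, hmax⟩ := exists_max_image (univ.filter (fun F : Finset E => Chn s t F))
    Finset.card ⟨∅, by rw [mem_filter]; exact ⟨mem_univ _, chn_empty s t⟩⟩
  rw [mem_filter] at hF
  have hno : ∀ H : Finset E, H.Nonempty → Disjoint H F → ¬ St s t F H := by
    intro H hH hd hSt
    have h1 := hmax (F ∪ H) (by
      rw [mem_filter]
      exact ⟨mem_univ _, chn_step s t F H hF.2 hd hSt⟩)
    rw [card_union_of_disjoint hd.symm] at h1
    have := card_pos.2 hH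
    omega
  obtain ⟨m, C, h1, h2⟩ := hF.2
  refine five16M circEx s t m C h1 (n1_crs _ _ hb) ?_
  rw [h2]
  intro r q1 q3
  have hbd : ∀ W : Finset V, bd (r ∘ s) (r ∘ t) W = crs s t (univ.filter (fun v => r v ∈ W)) :=
    fun W => crs_comp s t r W
  have hsat : ∀ Y : Finset V, Disjoint (crs s t Y) F →
      crs s t Y = bd (r ∘ s) (r ∘ t) (Y.image r) := by
    intro Y hY
    rw [hbd]
    congr 1
    ext v
    rw [mem_filter, mem_image]
    constructor
    · intro hv
      exact ⟨mem_univ _, v, hv, rfl⟩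
    · rintro ⟨-, y, hy, hyv⟩
      exact (q3 Y hY y v hyv).1 hy
  have hdis : ∀ H : Finset E, (∀ e ∈ H, (r ∘ s) e ≠ (r ∘ t) e) → Disjoint H F := by
    intro H hH
    rw [disjoint_left]
    intro e he heF
    exact hH e he (q1 e heF)
  have h16 := hcon r
    (fun H hne hH hT => hno H hne (hdis H hH) (Or.inr (by
      obtain ⟨T₁, T₂, a1, a2, a3, a4⟩ := hT
      refine ⟨T₁, T₂, a1, a2, a3, fun Y hY hYH => ?_⟩
      rw [hsat Y hY] at hYH ⊢
      exact a4 _ hYH)))
    (fun H hne hH hS => hno H hne (hdis H hH) (Or.inl ⟨fun Y hY => by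
      rw [hsat Y hY]
      exact hS.2 _, hS.1⟩))
  refine le_trans (card_le_card ?_) h16
  intro w hw
  unfold TH362.TF.odd at hw
  rw [mem_filter, deg_par] at hw
  rw [mem_filter, hbd, Nat.not_even_iff_odd]
  refine ⟨mem_univ _, ?_⟩
  simpa using hw.2

/-- disjoint fibres -/
theorem fibres (s t : E → V) (r : V → V) (n k : ℕ)
    (h : n ≤ (univ.filter (fun w : V => (bd (r ∘ s) (r ∘ t) {w}).card ≠ 0 ∧
      (bd (r ∘ s) (r ∘ t) {w}).card ≤ k)).card) :
    ∃ X : Fin n → Finset V, (∀ i j, i ≠ j → Disjoint (X i) (X j)) ∧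
      ∀ i, (crs s t (X i)).card ≠ 0 ∧ (crs s t (X i)).card ≤ k := by
  classical
  have hbd : ∀ W : Finset V, bd (r ∘ s) (r ∘ t) W = crs s t (univ.filter (fun v => r v ∈ W)) :=
    fun W => crs_comp s t r W
  obtain ⟨A, hA, hAn⟩ := exists_subset_card_eq h
  let g := A.equivFinOfCardEq hAn
  refine ⟨fun i => univ.filter (fun v => r v ∈ ({(g.symm i).1} : Finset V)), fun i j hij => ?_,
    fun i => ?_⟩
  · rw [disjoint_left]
    intro v hv hv'
    rw [mem_filter, mem_singleton] at hv hv'
    exact hij (g.symm.injective (Subtype.ext (hv.2.symm.trans hv'.2)))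
  · have h3 := hA (g.symm i).2
    rw [mem_filter, hbd] at h3
    exact h3.2

/-- **Few small cuts.** -/
theorem few_main (s t : E → V) (hb : ∀ Y : Finset V, (crs s t Y).card ≠ 1)
    (hno : ¬ FiveClasses (⟨s, t⟩ : OrGraph V E)) :
    (∃ X : Fin 12 → Finset V, (∀ i j, i ≠ j → Disjoint (X i) (X j)) ∧
      ∀ i, (crs s t (X i)).card ≠ 0 ∧ (crs s t (X i)).card ≤ 3) ∧
    (∃ X : Fin 18 → Finset V, (∀ i j, i ≠ j → Disjoint (X i) (X j)) ∧
      ∀ i, (crs s t (X i)).card ≠ 0 ∧ (crs s t (X i)).card ≤ 7) := by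
  obtain ⟨r, hT, hS, ho⟩ := reduced s t hb hno
  have hB : ∀ W : Finset V, (bd (r ∘ s) (r ∘ t) W).card ≠ 1 := by
    intro W
    have hbd : bd (r ∘ s) (r ∘ t) W = crs s t (univ.filter (fun v => r v ∈ W)) :=
      crs_comp s t r W
    rw [hbd]
    exact hb _
  exact ⟨fibres s t r 12 3 (twelve _ _ hT hB ho), fibres s t r 18 7 (eighteen _ _ hT hS hB ho)⟩

end Pool.Agent.K4H79.OC
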