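import Pool.Agent.K4H79.OC.Sparse

set_option autoImplicit false
set_option linter.unusedSectionVars false

/-!
# Sparse graphs: few small degrees or few odd degrees

A bridgeless multigraph without circuits of length at most four in which no nonempty set of edges
contains two disjoint connectors has at most sixteen vertices of odd degree or at least eighteen
vertices whose degree is between one and seven.
-/

namespace Pool.Agent.K4H79.OC

open Finset

variable {V E : Type} [Fintype V] [DecidableEq V] [Fintype E] [DecidableEq E]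

/-- `H` has at most four elements and no cut meets it in exactly one edge -/
def Short (a b : E → V) (H : Finset E) : Prop :=
  H.card ≤ 4 ∧ ∀ W : Finset V, (bd a b W ∩ H).card ≠ 1

/-- `e` joins `x` and `y` -/
def J (a b : E → V) (e : E) (x y : V) : Prop := (a e = x ∧ b e = y) ∨ (a e = y ∧ b e = x)

theorem J.symm {a b : E → V} {e : E} {x y : V} (h : J a b e x y) : J a b e y x := Or.symm h

theorem J.mem {a b : E → V} {e : E} {x y : V} (h : J a b e x y) (W : Finset V) :
    e ∈ bd a b W ↔ ¬ (x ∈ W ↔ y ∈ W) := by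
  rw [mem_bd]
  rcases h with ⟨h1, h2⟩ | ⟨h1, h2⟩
  · rw [h1, h2]
  · rw [h1, h2]
    exact ⟨fun h h' => h h'.symm, fun h h' => h h'.symm⟩

theorem J.ne {a b : E → V} {e : E} {x y : V} (h : J a b e x y) (hxy : x ≠ y) : a e ≠ b e := by
  rcases h with ⟨h1, h2⟩ | ⟨h1, h2⟩
  · rw [h1, h2]; exact hxy
  · rw [h1, h2]; exact hxy.symm

theorem J.uniq {a b : E → V} {e : E} {x y z w : V} (h : J a b e x y) (h' : J a b e z w) :
    (x = z ∧ y = w) ∨ (x = w ∧ y = z) := by
  rcases h with ⟨h1, h2⟩ | ⟨h1, h2⟩ <;> rcases h' with ⟨h3, h4⟩ | ⟨h3, h4⟩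
  · exact Or.inl ⟨h1.symm.trans h3, h2.symm.trans h4⟩
  · exact Or.inr ⟨h1.symm.trans h3, h2.symm.trans h4⟩
  · exact Or.inr ⟨h2.symm.trans h4, h1.symm.trans h3⟩
  · exact Or.inl ⟨h2.symm.trans h4, h1.symm.trans h3⟩

theorem card_bd_inter (a b : E → V) (W : Finset V) (H : Finset E) :
    (bd a b W ∩ H).card = ∑ e ∈ H, if e ∈ bd a b W then 1 else 0 := by
  rw [inter_comm, ← filter_mem_eq_inter, card_filter]

theorem short2 {a b : E → V} {e f : E} {x y : V} (h1 : J a b e x y) (h2 : J a b f x y)
    (h : e ≠ f) : Short a b {e, f} := by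
  refine ⟨(card_le_two).trans (by norm_num), fun W => ?_⟩
  rw [card_bd_inter, sum_pair h]
  simp only [h1.mem, h2.mem]
  by_cases hx : x ∈ W <;> by_cases hy : y ∈ W <;> simp [hx, hy]

theorem short3 {a b : E → V} {e f g : E} {x y z : V} (h1 : J a b e x y) (h2 : J a b f y z)
    (h3 : J a b g z x) (hef : e ≠ f) (heg : e ≠ g) (hfg : f ≠ g) : Short a b {e, f, g} := by
  refine ⟨(card_le_three).trans (by norm_num), fun W => ?_⟩
  rw [card_bd_inter, sum_insert (by simp [hef, heg]), sum_pair hfg]
  simp only [h1.mem, h2.mem, h3.mem]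
  by_cases hx : x ∈ W <;> by_cases hy : y ∈ W <;> by_cases hz : z ∈ W <;> simp [hx, hy, hz]

theorem short4 {a b : E → V} {e f g h : E} {x y z w : V} (h1 : J a b e x y) (h2 : J a b f y z)
    (h3 : J a b g z w) (h4 : J a b h w x) (hef : e ≠ f) (heg : e ≠ g) (heh : e ≠ h) (hfg : f ≠ g)
    (hfh : f ≠ h) (hgh : g ≠ h) : Short a b {e, f, g, h} := by
  refine ⟨card_le_four, fun W => ?_⟩
  rw [card_bd_inter, sum_insert (by simp [hef, heg, heh]), sum_insert (by simp [hfg, hfh]),
    sum_pair hgh]
  simp only [h1.mem, h2.mem, h3.mem, h4.mem]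
  by_cases hx : x ∈ W <;> by_cases hy : y ∈ W <;> by_cases hz : z ∈ W <;> by_cases hw : w ∈ W <;>
    simp [hx, hy, hz, hw]

/-- the other end -/
def oth (a b : E → V) (u : V) (e : E) : V := if a e = u then b e else a e

theorem oth_J {a b : E → V} {u : V} {e : E} (he : e ∈ bd a b {u}) :
    J a b e u (oth a b u e) ∧ oth a b u e ≠ u := by
  rw [mem_bd, mem_singleton, mem_singleton] at he
  unfold oth
  by_cases h : a e = u
  · rw [if_pos h]
    exact ⟨Or.inl ⟨h, rfl⟩, fun h' => he ⟨fun _ => h', fun _ => h⟩⟩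
  · rw [if_neg h]
    refine ⟨Or.inr ⟨rfl, ?_⟩, h⟩
    by_contra h'
    exact he ⟨fun h'' => absurd h'' h, fun h'' => absurd h'' h'⟩

theorem J.bd_left {a b : E → V} {e : E} {x y : V} (h : J a b e x y) (hxy : x ≠ y) :
    e ∈ bd a b {x} := by
  rw [h.mem, mem_singleton, mem_singleton]
  exact fun h' => hxy.symm (h'.1 rfl)

/-- the vertices of positive degree -/
def sup (a b : E → V) : Finset V := univ.filter (fun w => (bd a b {w}).card ≠ 0)

theorem mem_sup_of {a b : E → V} {e : E} {w : V} (h : e ∈ bd a b {w}) : w ∈ sup a b := by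
  unfold sup
  rw [mem_filter]
  exact ⟨mem_univ _, fun h0 => by rw [card_eq_zero] at h0; rw [h0] at h; exact notMem_empty _ h⟩

theorem nb_inj {a b : E → V}
    (hS : ∀ H : Finset E, H.Nonempty → (∀ e ∈ H, a e ≠ b e) → ¬ Short a b H) {u : V} {e f : E}
    (he : e ∈ bd a b {u}) (hf : f ∈ bd a b {u}) (h : oth a b u e = oth a b u f) : e = f := by
  by_contra hne
  obtain ⟨h1, h2⟩ := oth_J he
  obtain ⟨h3, h4⟩ := oth_J hf
  rw [← h] at h3
  refine hS {e, f} ⟨e, mem_insert_self _ _⟩ ?_ (short2 h1 h3 hne)
  intro g hg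
  rw [mem_insert, mem_singleton] at hg
  rcases hg with rfl | rfl
  · exact h1.ne h2.symm
  · exact h3.ne h2.symm

theorem expand {a b : E → V}
    (hS : ∀ H : Finset E, H.Nonempty → (∀ e ∈ H, a e ≠ b e) → ¬ Short a b H) (u : V)
    (hu : u ∈ sup a b) :
    1 + ∑ e ∈ bd a b {u}, (bd a b {oth a b u e}).card ≤ (sup a b).card := by
  classical
  set P : Finset (Σ _ : E, E) := (bd a b {u}).sigma (fun e => bd a b {oth a b u e}) with hP
  have hPc : P.card = ∑ e ∈ bd a b {u}, (bd a b {oth a b u e}).card := card_sigma _ _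
  set g : (Σ _ : E, E) → V := fun p => if p.2 = p.1 then oth a b u p.1 else
    oth a b (oth a b u p.1) p.2 with hg
  have hgu : ∀ p ∈ P, g p ≠ u := by
    rintro ⟨e, f⟩ hp
    rw [hP, mem_sigma] at hp
    obtain ⟨he, hf⟩ := hp
    obtain ⟨h1, h2⟩ := oth_J he
    obtain ⟨h3, h4⟩ := oth_J hf
    by_cases h : f = e
    · have : g ⟨e, f⟩ = oth a b u e := if_pos h
      rw [this]; exact h2
    · have h5 : g ⟨e, f⟩ = oth a b (oth a b u e) f := if_neg h
      rw [h5]
      intro h6
      dsimp only at h3 h4
      rw [h6] at h3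
      refine hS {e, f} ⟨e, mem_insert_self _ _⟩ ?_ (short2 h1 h3.symm (Ne.symm h))
      intro k hk
      rw [mem_insert, mem_singleton] at hk
      rcases hk with rfl | rfl
      · exact h1.ne h2.symm
      · exact h3.ne h2
  have hgN : ∀ p ∈ P, g p ∈ sup a b := by
    rintro ⟨e, f⟩ hp
    rw [hP, mem_sigma] at hp
    obtain ⟨he, hf⟩ := hp
    obtain ⟨h1, h2⟩ := oth_J he
    obtain ⟨h3, h4⟩ := oth_J hf
    dsimp only at h3 h4
    by_cases h : f = e
    · have : g ⟨e, f⟩ = oth a b u e := if_pos h
      rw [this]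
      exact mem_sup_of (h1.symm.bd_left h2)
    · have h5 : g ⟨e, f⟩ = oth a b (oth a b u e) f := if_neg h
      rw [h5]
      exact mem_sup_of (h3.symm.bd_left h4)
  have hinj : ∀ p ∈ P, ∀ q ∈ P, g p = g q → p = q := by
    rintro ⟨e, f⟩ hp ⟨e', f'⟩ hq hpq
    have hpu := hgu _ hp
    have hqu := hgu _ hq
    rw [hP, mem_sigma] at hp hq
    obtain ⟨he, hf⟩ := hp
    obtain ⟨he', hf'⟩ := hq
    dsimp only at he hf he' hf'
    obtain ⟨h1, h2⟩ := oth_J he
    obtain ⟨h3, h4⟩ := oth_J hf
    obtain ⟨h1', h2'⟩ := oth_J he'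
    obtain ⟨h3', h4'⟩ := oth_J hf'
    by_cases h : f = e
    · have hgp : g ⟨e, f⟩ = oth a b u e := if_pos h
      by_cases h' : f' = e'
      · have hgq : g ⟨e', f'⟩ = oth a b u e' := if_pos h'
        rw [hgp, hgq] at hpq
        have h5 := nb_inj hS he he' hpq
        rw [h, h', h5]
      · exfalso
        have hgq : g ⟨e', f'⟩ = oth a b (oth a b u e') f' := if_neg h'
        rw [hgp, hgq] at hpq
        rw [← hpq] at h3' h4'
        have hee : e ≠ e' := by
          rintro rfl
          exact h4' rfl
        have hfe : e ≠ f' := by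
          rintro rfl
          rcases h1.uniq h3' with ⟨h5, _⟩ | ⟨h5, _⟩
          · exact h2' h5.symm
          · exact h2 h5.symm
        refine hS {e, f', e'} ⟨e, mem_insert_self _ _⟩ ?_
          (short3 h1 h3'.symm h1'.symm hfe hee h')
        intro k hk
        rw [mem_insert, mem_insert, mem_singleton] at hk
        rcases hk with rfl | rfl | rfl
        · exact h1.ne h2.symm
        · exact h3'.ne h4'.symm
        · exact h1'.ne h2'.symm
    · have hgp : g ⟨e, f⟩ = oth a b (oth a b u e) f := if_neg h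
      by_cases h' : f' = e'
      · exfalso
        have hgq : g ⟨e', f'⟩ = oth a b u e' := if_pos h'
        rw [hgp, hgq] at hpq
        rw [hpq] at h3 h4
        have hee : e' ≠ e := by
          rintro rfl
          exact h4 rfl
        have hfe : e' ≠ f := by
          rintro rfl
          rcases h1'.uniq h3 with ⟨h5, _⟩ | ⟨h5, _⟩
          · exact h2 h5.symm
          · exact h2' h5.symm
        refine hS {e', f, e} ⟨e', mem_insert_self _ _⟩ ?_
          (short3 h1' h3.symm h1.symm hfe hee h)
        intro k hk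
        rw [mem_insert, mem_insert, mem_singleton] at hk
        rcases hk with rfl | rfl | rfl
        · exact h1'.ne h2'.symm
        · exact h3.ne h4.symm
        · exact h1.ne h2.symm
      · have hgq : g ⟨e', f'⟩ = oth a b (oth a b u e') f' := if_neg h'
        rw [hgp] at hpu
        rw [hgp, hgq] at hpq
        rw [← hpq] at h3' h4'
        by_cases hee : e = e'
        · subst hee
          have h5 : f = f' := by
            by_contra hne
            refine hS {f, f'} ⟨f, mem_insert_self _ _⟩ ?_ (short2 h3 h3' hne)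
            intro k hk
            rw [mem_insert, mem_singleton] at hk
            rcases hk with rfl | rfl
            · exact h3.ne h4.symm
            · exact h3'.ne h4'.symm
          rw [h5]
        · exfalso
          have hff : f ≠ f' := by
            rintro rfl
            rcases h3.uniq h3' with ⟨h5, _⟩ | ⟨h5, _⟩
            · exact hee (nb_inj hS he he' h5)
            · exact h4 h5.symm
          have hef' : e ≠ f' := by
            rintro rfl
            rcases h1.uniq h3' with ⟨h5, _⟩ | ⟨h5, _⟩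
            · exact h2' h5.symm
            · exact hpu h5.symm
          have he'f : e' ≠ f := by
            rintro rfl
            rcases h1'.uniq h3 with ⟨h5, _⟩ | ⟨h5, _⟩
            · exact h2 h5.symm
            · exact hpu h5.symm
          refine hS {e, f, f', e'} ⟨e, mem_insert_self _ _⟩ ?_
            (short4 h1 h3 h3'.symm h1'.symm (Ne.symm h) hef' hee hff (Ne.symm he'f) h')
          intro k hk
          rw [mem_insert, mem_insert, mem_insert, mem_singleton] at hk
          rcases hk with rfl | rfl | rfl | rfl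
          · exact h1.ne h2.symm
          · exact h3.ne h4.symm
          · exact h3'.ne h4'.symm
          · exact h1'.ne h2'.symm
  rw [← hPc]
  have h1 : (insert u (P.image g)).card ≤ (sup a b).card := by
    apply card_le_card
    intro w hw
    rw [mem_insert, mem_image] at hw
    rcases hw with rfl | ⟨p, hp, rfl⟩
    · exact hu
    · exact hgN p hp
  rw [card_insert_of_notMem (by
    rw [mem_image]
    rintro ⟨p, hp, hpu⟩
    exact hgu p hp hpu), card_image_of_injOn (fun p hp q hq => hinj p hp q hq)] at h1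
  omega

end Pool.Agent.K4H79.OC
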