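import Pool.Agent.K4H79.OC.Degree

set_option autoImplicit false
set_option linter.unusedSectionVars false

/-!
# Sparse graphs: sixteen odd degrees or eighteen small degrees
-/

namespace Pool.Agent.K4H79.OC

open Finset

variable {V E : Type} [Fintype V] [DecidableEq V] [Fintype E] [DecidableEq E]

theorem card_ends (x y : V) :
    (univ.filter (fun w : V => ¬ (x ∈ ({w} : Finset V) ↔ y ∈ ({w} : Finset V)))).card =
      if x ≠ y then 2 else 0 := by
  by_cases h : x = y
  · subst h
    simp
  · rw [if_pos h]
    have : (univ.filter (fun w : V => ¬ (x ∈ ({w} : Finset V) ↔ y ∈ ({w} : Finset V)))) =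
        {x, y} := by
      ext w
      simp only [mem_filter, mem_univ, true_and, mem_singleton, mem_insert]
      constructor
      · intro h'
        by_contra hc
        push Not at hc
        exact h' ⟨fun h1 => absurd h1.symm hc.1, fun h1 => absurd h1.symm hc.2⟩
      · rintro (rfl | rfl)
        · exact fun h' => h (h'.1 rfl).symm
        · exact fun h' => h (h'.2 rfl)
    rw [this, card_pair h]

theorem sum_deg (a b : E → V) :
    ∑ w : V, (bd a b {w}).card = 2 * (univ.filter (fun e : E => a e ≠ b e)).card := by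
  have h1 : ∀ w : V, (bd a b {w}).card =
      ∑ e : E, if ¬ (a e ∈ ({w} : Finset V) ↔ b e ∈ ({w} : Finset V)) then 1 else 0 := by
    intro w
    unfold bd
    rw [card_filter]
  rw [sum_congr rfl (fun w _ => h1 w), sum_comm, card_filter, mul_sum]
  apply sum_congr rfl
  intro e _
  rw [← card_filter, card_ends]
  split_ifs <;> rfl

/-- the budget: the average degree is less than four -/
theorem budget (a b : E → V)
    (hT : ∀ H : Finset E, H.Nonempty → (∀ e ∈ H, a e ≠ b e) → ¬ Twin a b H)
    (ho : 16 < (univ.filter (fun w : V => ¬ Even (bd a b {w}).card)).card) :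
    2 * (univ.filter (fun e : E => a e ≠ b e)).card + 6 ≤ 4 * (sup a b).card := by
  classical
  set L : Finset E := univ.filter (fun e : E => a e ≠ b e) with hL
  obtain ⟨w0, hw0⟩ := card_pos.1 (lt_trans (by norm_num) ho)
  rw [mem_filter] at hw0
  have hD0 : (bd a b {w0}).card ≠ 0 := by
    intro h
    apply hw0.2
    rw [h]
    exact Even.zero
  have hNne : (sup a b).Nonempty := ⟨w0, by unfold sup; rw [mem_filter]; exact ⟨mem_univ _, hD0⟩⟩
  have hbdL : ∀ w : V, bd a b {w} ⊆ L := by
    intro w e he
    obtain ⟨h1, h2⟩ := oth_J he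
    rw [hL, mem_filter]
    exact ⟨mem_univ _, h1.ne h2.symm⟩
  have hLne : L.Nonempty := by
    obtain ⟨e, he⟩ := card_pos.1 (Nat.pos_of_ne_zero hD0)
    exact ⟨e, hbdL _ he⟩
  have hrk : rk a b L < (sup a b).card := by
    apply rk_lt a b L (sup a b) hNne
    intro e he
    rw [hL, mem_filter] at he
    constructor
    · apply mem_sup_of (e := e)
      rw [mem_bd, mem_singleton, mem_singleton]
      exact fun h => he.2 (h.1 rfl).symm
    · apply mem_sup_of (e := e)
      rw [mem_bd, mem_singleton, mem_singleton]
      exact fun h => he.2 (h.2 rfl)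
  have hLlt : L.card < 2 * rk a b L := by
    by_contra h
    push Not at h
    obtain ⟨H, hHL, hHne, hH⟩ := exists_twin a b L hLne h
    refine hT H hHne (fun e he => ?_) hH
    have h1 := hHL he
    rw [hL, mem_filter] at h1
    exact h1.2
  omega

/-- the number of vertices of odd degree is even -/
theorem parity (a b : E → V) :
    Even (univ.filter (fun w : V => ¬ Even (bd a b {w}).card)).card := by
  have h1 : Even (∑ w : V, (bd a b {w}).card) := by rw [sum_deg]; exact even_two_mul _
  rw [Finset.even_sum_iff_even_card_odd] at h1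
  have h2 : (univ.filter (fun w : V => ¬ Even (bd a b {w}).card)) =
      univ.filter (fun w : V => Odd (bd a b {w}).card) := by
    apply filter_congr
    intro w _
    exact Nat.not_even_iff_odd
  rw [h2]
  exact h1

theorem eighteen (a b : E → V)
    (hT : ∀ H : Finset E, H.Nonempty → (∀ e ∈ H, a e ≠ b e) → ¬ Twin a b H)
    (hS : ∀ H : Finset E, H.Nonempty → (∀ e ∈ H, a e ≠ b e) → ¬ Short a b H)
    (hB : ∀ W : Finset V, (bd a b W).card ≠ 1)
    (ho : 16 < (univ.filter (fun w : V => ¬ Even (bd a b {w}).card)).card) :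
    18 ≤ (univ.filter (fun w : V => (bd a b {w}).card ≠ 0 ∧ (bd a b {w}).card ≤ 7)).card := by
  classical
  by_contra hcon
  push Not at hcon
  set D : V → ℕ := fun w => (bd a b {w}).card with hD
  have hsum : ∑ w : V, D w = 2 * (univ.filter (fun e : E => a e ≠ b e)).card := sum_deg a b
  have hbud := budget a b hT ho
  have hone : ∀ w : V, D w ≠ 1 := fun w => hB {w}
  have hpar : Even (univ.filter (fun w : V => ¬ Even (D w))).card := parity a b
  -- the classes
  set os := (univ.filter (fun w : V => ¬ Even (D w) ∧ D w ≤ 7)) with hos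
  set ol := (univ.filter (fun w : V => ¬ Even (D w) ∧ ¬ D w ≤ 7)) with hol
  set es := (univ.filter (fun w : V => (Even (D w) ∧ D w ≠ 0) ∧ D w ≤ 7)) with hes
  set el := (univ.filter (fun w : V => (Even (D w) ∧ D w ≠ 0) ∧ ¬ D w ≤ 7)) with hel
  have c1 : (univ.filter (fun w : V => ¬ Even (D w))).card = os.card + ol.card := by
    rw [hos, hol, ← filter_filter, ← filter_filter, card_filter_add_card_filter_not]
  have c2 : (univ.filter (fun w : V => D w ≠ 0 ∧ D w ≤ 7)).card = os.card + es.card := by
    rw [← card_union_of_disjoint]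
    · congr 1
      ext w
      simp only [hos, hes, mem_filter, mem_univ, true_and, mem_union]
      constructor
      · rintro ⟨h1, h2⟩
        by_cases h : Even (D w)
        · exact Or.inr ⟨⟨h, h1⟩, h2⟩
        · exact Or.inl ⟨h, h2⟩
      · rintro (⟨h1, h2⟩ | ⟨⟨_, h1⟩, h2⟩)
        · exact ⟨fun h => h1 (by rw [h]; exact Even.zero), h2⟩
        · exact ⟨h1, h2⟩
    · rw [disjoint_left]
      intro w h1 h2
      rw [hos, mem_filter] at h1
      rw [hes, mem_filter] at h2
      exact h1.2.1 h2.2.1.1
  have c3 : (sup a b).card = (os.card + ol.card) + (es.card + el.card) := by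
    have h1 : (sup a b) = univ.filter (fun w : V => D w ≠ 0) := rfl
    have h2 : (univ.filter (fun w : V => D w ≠ 0)).card =
        ((univ.filter (fun w : V => D w ≠ 0)).filter (fun w => ¬ Even (D w))).card +
        ((univ.filter (fun w : V => D w ≠ 0)).filter (fun w => ¬ ¬ Even (D w))).card :=
      (card_filter_add_card_filter_not _).symm
    rw [h1, h2]
    congr 1
    · rw [← c1]
      congr 1
      ext w
      simp only [mem_filter, mem_univ, true_and]
      constructor
      · rintro ⟨_, h⟩; exact h
      · intro h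
        exact ⟨fun h0 => h (by rw [h0]; exact Even.zero), h⟩
    · have h3 := card_filter_add_card_filter_not
        (s := univ.filter (fun w : V => Even (D w) ∧ D w ≠ 0)) (fun w => D w ≤ 7)
      rw [filter_filter, filter_filter] at h3
      rw [hes, hel, h3]
      congr 1
      ext w
      simp only [mem_filter, mem_univ, true_and, not_not]
      exact ⟨fun h => ⟨h.2, h.1⟩, fun h => ⟨h.2, h.1⟩⟩
  -- weight
  have c4 : 3 * os.card + 9 * ol.card + 2 * es.card + 8 * el.card ≤ ∑ w : V, D w := by
    have h1 : 3 * os.card + 9 * ol.card + 2 * es.card + 8 * el.card =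
        ∑ w : V, ((if w ∈ os then 3 else 0) + (if w ∈ ol then 9 else 0) +
          (if w ∈ es then 2 else 0) + (if w ∈ el then 8 else 0)) := by
      rw [sum_add_distrib, sum_add_distrib, sum_add_distrib]
      simp only [sum_ite_mem, univ_inter, sum_const, smul_eq_mul]
      ring
    rw [h1]
    apply sum_le_sum
    intro w _
    have h2 := hone w
    by_cases h3 : Even (D w)
    · have m1 : w ∉ os := by rw [hos, mem_filter]; exact fun h => h.2.1 h3
      have m2 : w ∉ ol := by rw [hol, mem_filter]; exact fun h => h.2.1 h3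
      rw [if_neg m1, if_neg m2]
      by_cases h4 : D w = 0
      · have m3 : w ∉ es := by rw [hes, mem_filter]; exact fun h => h.2.1.2 h4
        have m4 : w ∉ el := by rw [hel, mem_filter]; exact fun h => h.2.1.2 h4
        rw [if_neg m3, if_neg m4]
        omega
      · by_cases h5 : D w ≤ 7
        · have m4 : w ∉ el := by rw [hel, mem_filter]; exact fun h => h.2.2 h5
          rw [if_neg m4]
          split_ifs <;> omega
        · have m3 : w ∉ es := by rw [hes, mem_filter]; exact fun h => h5 h.2.2
          rw [if_neg m3]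
          split_ifs <;> omega
    · have m3 : w ∉ es := by rw [hes, mem_filter]; exact fun h => h3 h.2.1.1
      have m4 : w ∉ el := by rw [hel, mem_filter]; exact fun h => h3 h.2.1.1
      rw [if_neg m3, if_neg m4]
      obtain ⟨k, hk⟩ := Nat.not_even_iff_odd.1 h3
      by_cases h5 : D w ≤ 7
      · have m2 : w ∉ ol := by rw [hol, mem_filter]; exact fun h => h.2.2 h5
        rw [if_neg m2]
        split_ifs <;> omega
      · have m1 : w ∉ os := by rw [hos, mem_filter]; exact fun h => h5 h.2.2
        rw [if_neg m1]
        split_ifs <;> omega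
  obtain ⟨k, hk⟩ := hpar
  rw [hsum] at c4
  change 16 < (univ.filter (fun w : V => ¬ Even (D w))).card at ho
  change (univ.filter (fun w : V => D w ≠ 0 ∧ D w ≤ 7)).card < 18 at hcon
  have hol1 : 0 < ol.card := by omega
  have hN19 : (sup a b).card ≤ 19 := by omega
  have hes1 : es.card ≤ 1 := by omega
  obtain ⟨u, hu⟩ := card_pos.1 hol1
  rw [hol, mem_filter] at hu
  obtain ⟨j, hj⟩ := Nat.not_even_iff_odd.1 hu.2.1
  have hu9 : 9 ≤ D u := by
    have := hu.2.2
    omega
  have husup : u ∈ sup a b := by
    unfold sup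
    rw [mem_filter]
    refine ⟨mem_univ _, ?_⟩
    change D u ≠ 0
    omega
  have hexp := expand hS u husup
  have hge : ∀ e ∈ bd a b {u}, 2 ≤ D (oth a b u e) := by
    intro e he
    obtain ⟨h1, h2⟩ := oth_J he
    have h3 : D (oth a b u e) ≠ 0 := by
      intro h0
      have h4 := h1.symm.bd_left h2
      rw [card_eq_zero.1 h0] at h4
      exact notMem_empty _ h4
    have := hone (oth a b u e)
    omega
  have hall : ∀ e ∈ bd a b {u}, D (oth a b u e) = 2 := by
    intro e he
    have h1 := hge e he
    have h2 : ∑ f ∈ (bd a b {u}).erase e, 2 ≤ ∑ f ∈ (bd a b {u}).erase e, D (oth a b u f) :=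
      sum_le_sum (fun f hf => hge f (mem_of_mem_erase hf))
    rw [sum_const, smul_eq_mul, card_erase_of_mem he] at h2
    have h3 := add_sum_erase (bd a b {u}) (fun f => D (oth a b u f)) he
    change 1 + ∑ f ∈ bd a b {u}, D (oth a b u f) ≤ _ at hexp
    change 9 ≤ (bd a b {u}).card at hu9
    omega
  have himg : (bd a b {u}).image (oth a b u) ⊆ es := by
    intro w hw
    rw [mem_image] at hw
    obtain ⟨e, he, rfl⟩ := hw
    rw [hes, mem_filter]
    have h1 := hall e he
    refine ⟨mem_univ _, ⟨?_, ?_⟩, ?_⟩
    · rw [h1]; exact even_two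
    · rw [h1]; norm_num
    · rw [h1]; norm_num
  have hc := card_le_card himg
  rw [card_image_of_injOn (fun e he f hf h => nb_inj hS he hf h)] at hc
  change 9 ≤ (bd a b {u}).card at hu9
  omega

/-- at least twelve vertices have degree two or three -/
theorem twelve (a b : E → V)
    (hT : ∀ H : Finset E, H.Nonempty → (∀ e ∈ H, a e ≠ b e) → ¬ Twin a b H)
    (hB : ∀ W : Finset V, (bd a b W).card ≠ 1)
    (ho : 16 < (univ.filter (fun w : V => ¬ Even (bd a b {w}).card)).card) :
    12 ≤ (univ.filter (fun w : V => (bd a b {w}).card ≠ 0 ∧ (bd a b {w}).card ≤ 3)).card := by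
  classical
  by_contra hcon
  push Not at hcon
  have hbud := budget a b hT ho
  rw [← sum_deg] at hbud
  obtain ⟨k, hk⟩ := parity a b
  have hone : ∀ w : V, (bd a b {w}).card ≠ 1 := fun w => hB {w}
  have key : 4 * (sup a b).card + (univ.filter (fun w : V => ¬ Even (bd a b {w}).card)).card ≤
      ∑ w : V, (bd a b {w}).card +
        2 * (univ.filter (fun w : V => (bd a b {w}).card ≠ 0 ∧ (bd a b {w}).card ≤ 3)).card := by
    unfold sup
    rw [card_filter, card_filter, card_filter, mul_sum, mul_sum, ← sum_add_distrib,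
      ← sum_add_distrib]
    apply sum_le_sum
    intro w _
    have h2 := hone w
    by_cases h3 : Even (bd a b {w}).card
    · rw [if_neg (not_not.2 h3)]
      obtain ⟨j, hj⟩ := h3
      split_ifs <;> omega
    · rw [if_pos h3]
      obtain ⟨j, hj⟩ := Nat.not_even_iff_odd.1 h3
      split_ifs <;> omega
  omega

end Pool.Agent.K4H79.OC
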