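import Mathlib
import Pool.Agent.H825R2.EW.PackM

set_option autoImplicit false
set_option linter.unusedSectionVars false

/-!
# Sparse graphs: the rank argument

`a b : E → V` is a finite multigraph. A nonempty set `S` of edges with at least twice as many
elements as its rank contains a nonempty set with two disjoint connectors (matroid union), and the
rank is less than the number of the vertices which are met by `S`.
-/

namespace Pool.Agent.K4H79.OC

open Finset
open Pool.Agent.Helper879.ECD (sp)

variable {V E : Type} [Fintype V] [DecidableEq V] [Fintype E] [DecidableEq E]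

/-- the edges with exactly one end in `W` -/
def bd (a b : E → V) (W : Finset V) : Finset E := univ.filter (fun e => ¬ (a e ∈ W ↔ b e ∈ W))

theorem mem_bd (a b : E → V) (W : Finset V) (e : E) : e ∈ bd a b W ↔ ¬ (a e ∈ W ↔ b e ∈ W) := by
  simp [bd]

/-- `H` contains two disjoint sets each of which connects whatever `H` connects -/
def Twin (a b : E → V) (H : Finset E) : Prop :=
  ∃ T₁ T₂ : Finset E, T₁ ⊆ H ∧ T₂ ⊆ H ∧ Disjoint T₁ T₂ ∧ ∀ W : Finset V,
    ¬ Disjoint (bd a b W) H → ¬ Disjoint (bd a b W) T₁ ∧ ¬ Disjoint (bd a b W) T₂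

/-- the vector of an edge -/
def vec (a b : E → V) (e : E) : V → ℚ := Pi.single (a e) 1 - Pi.single (b e) 1

/-- rank -/
noncomputable def rk (a b : E → V) (R : Finset E) : ℕ := Module.finrank ℚ (sp ℚ (vec a b) R)

/-- the sum over `W` -/
def phi (W : Finset V) : (V → ℚ) →ₗ[ℚ] ℚ := ∑ w ∈ W, LinearMap.proj w

theorem phi_vec (a b : E → V) (W : Finset V) (e : E) :
    phi W (vec a b e) = (if a e ∈ W then 1 else 0) - (if b e ∈ W then 1 else 0) := by
  unfold phi vec
  rw [LinearMap.sum_apply]
  simp only [LinearMap.proj_apply, Pi.sub_apply, Finset.sum_sub_distrib, Pi.single_apply]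
  rw [Finset.sum_ite_eq', Finset.sum_ite_eq']

theorem span_conn (a b : E → V) (H T : Finset E)
    (h : sp ℚ (vec a b) T = sp ℚ (vec a b) H) (W : Finset V)
    (hW : ¬ Disjoint (bd a b W) H) : ¬ Disjoint (bd a b W) T := by
  intro hd
  rw [not_disjoint_iff] at hW
  obtain ⟨e, he, heH⟩ := hW
  have h1 : sp ℚ (vec a b) T ≤ LinearMap.ker (phi W) := by
    unfold sp
    rw [Submodule.span_le]
    rintro _ ⟨f, hf, rfl⟩
    rw [SetLike.mem_coe, LinearMap.mem_ker, phi_vec]
    have h2 : f ∉ bd a b W := fun h3 => (disjoint_left.1 hd) h3 (Finset.mem_coe.1 hf)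
    rw [mem_bd, not_not] at h2
    by_cases h3 : a f ∈ W
    · rw [if_pos h3, if_pos (h2.1 h3), sub_self]
    · rw [if_neg h3, if_neg (fun h4 => h3 (h2.2 h4)), sub_self]
  have h2 : vec a b e ∈ LinearMap.ker (phi W) := by
    apply h1
    rw [h]
    exact Pool.Agent.Helper879.ECD.mem_sp heH
  rw [LinearMap.mem_ker, phi_vec] at h2
  rw [mem_bd] at he
  by_cases h3 : a e ∈ W
  · have h4 : b e ∉ W := fun h4 => he ⟨fun _ => h4, fun _ => h3⟩
    rw [if_pos h3, if_neg h4] at h2
    norm_num at h2
  · have h4 : b e ∈ W := by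
      by_contra h4
      exact he ⟨fun h => absurd h h3, fun h => absurd h h4⟩
    rw [if_neg h3, if_pos h4] at h2
    norm_num at h2

theorem sp_map (x : E → (V → ℚ)) (H : Finset E) (R : Finset {e // e ∈ H}) :
    sp ℚ (fun e : {e // e ∈ H} => x e.1) R = sp ℚ x (R.map (Function.Embedding.subtype _)) := by
  unfold sp
  congr 1
  ext v
  simp only [Set.mem_image, Finset.mem_coe, Finset.mem_map, Function.Embedding.coe_subtype]
  constructor
  · rintro ⟨e, he, rfl⟩
    exact ⟨e.1, ⟨e, he, rfl⟩, rfl⟩
  · rintro ⟨_, ⟨e, he, rfl⟩, rfl⟩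
    exact ⟨e, he, rfl⟩

/-- a dense set contains a twin set -/
theorem exists_twin (a b : E → V) (S : Finset E) (hS : S.Nonempty)
    (hd : 2 * rk a b S ≤ S.card) : ∃ H ⊆ S, H.Nonempty ∧ Twin a b H := by
  classical
  obtain ⟨H, hH, hmin⟩ := Finset.exists_min_image
    (S.powerset.filter (fun H => H.Nonempty ∧ 2 * rk a b H ≤ H.card)) Finset.card
    ⟨S, by rw [mem_filter, mem_powerset]; exact ⟨Subset.refl _, hS, hd⟩⟩
  rw [mem_filter, mem_powerset] at hH
  obtain ⟨hHS, hHne, hHd⟩ := hH
  refine ⟨H, hHS, hHne, ?_⟩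
  have hsub : ∀ R ⊆ H, R ≠ H → R.card ≤ 2 * rk a b R := by
    intro R hR hRne
    rcases R.eq_empty_or_nonempty with h0 | h0
    · rw [h0]; simp
    by_contra hcon
    push Not at hcon
    have h1 := hmin R (by
      rw [mem_filter, mem_powerset]
      exact ⟨hR.trans hHS, h0, hcon.le⟩)
    exact hRne (eq_of_subset_of_card_le hR h1)
  have hpack := Pool.Agent.H825R2.EW.packM (F := ℚ) (K := Fin 2)
    (x := fun _ (e : {e // e ∈ H}) => vec a b e.1) (by
      intro R
      rw [Fin.sum_univ_two, Fin.sum_univ_two, sp_map, sp_map]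
      set R' := R.map (Function.Embedding.subtype (fun e => e ∈ H)) with hR'
      have huniv : (univ : Finset {e // e ∈ H}).map (Function.Embedding.subtype _) = H := by
        ext e
        simp
      rw [huniv]
      have hR'H : R' ⊆ H := by
        intro e he
        rw [hR', mem_map] at he
        obtain ⟨f, _, rfl⟩ := he
        exact f.2
      have hc : R'.card = R.card := card_map _
      have hc2 : (univ \ R).card = H.card - R.card := by
        rw [card_sdiff_of_subset (subset_univ _), Finset.card_univ, Fintype.card_coe]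
      have hc3 : R.card ≤ H.card := by rw [← hc]; exact card_le_card hR'H
      change rk a b H + rk a b H ≤ rk a b R' + rk a b R' + _
      rw [hc2]
      by_cases hRH : R' = H
      · rw [hRH]
        exact Nat.le_add_right _ _
      · have h1 := hsub R' hR'H hRH
        rw [hc] at h1
        omega)
  obtain ⟨I, hI1, hI2⟩ := hpack
  have huniv : (univ : Finset {e // e ∈ H}).map (Function.Embedding.subtype _) = H := by
    ext e
    simp
  have hsp : ∀ i, sp ℚ (vec a b) ((I i).map (Function.Embedding.subtype _)) =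
      sp ℚ (vec a b) H := by
    intro i
    have h1 := hI2 i
    rw [sp_map, sp_map, huniv] at h1
    exact h1
  have hIH : ∀ i, (I i).map (Function.Embedding.subtype _) ⊆ H := by
    intro i e he
    rw [mem_map] at he
    obtain ⟨f, _, rfl⟩ := he
    exact f.2
  refine ⟨(I 0).map (Function.Embedding.subtype _), (I 1).map (Function.Embedding.subtype _),
    hIH 0, hIH 1, ?_, fun W hW => ⟨span_conn a b H _ (hsp 0) W hW, span_conn a b H _ (hsp 1) W hW⟩⟩
  rw [Finset.disjoint_map]
  exact hI1 0 1 (by decide)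

/-- the rank is less than the number of the vertices of positive degree -/
theorem rk_lt (a b : E → V) (S : Finset E) (N : Finset V) (hN : N.Nonempty)
    (hS : ∀ e ∈ S, a e ∈ N ∧ b e ∈ N) : rk a b S < N.card := by
  classical
  obtain ⟨w0, hw0⟩ := hN
  have h1 : ∀ f ∈ sp ℚ (vec a b) S, (∀ w, w ∉ N → f w = 0) ∧ ∑ w ∈ N, f w = 0 := by
    intro f hf
    unfold sp at hf
    induction hf using Submodule.span_induction with
    | mem f hf =>
      obtain ⟨e, he, rfl⟩ := hf
      obtain ⟨h2, h3⟩ := hS e he
      constructor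
      · intro w hw
        have h4 : w ≠ a e := fun h => hw (h ▸ h2)
        have h5 : w ≠ b e := fun h => hw (h ▸ h3)
        unfold vec
        rw [Pi.sub_apply, Pi.single_eq_of_ne h4, Pi.single_eq_of_ne h5, sub_zero]
      · have h4 := phi_vec a b N e
        rw [if_pos h2, if_pos h3, sub_self] at h4
        unfold phi at h4
        rw [LinearMap.sum_apply] at h4
        simpa using h4
    | zero => exact ⟨fun _ _ => rfl, by simp⟩
    | add f g _ _ hf hg =>
      refine ⟨fun w hw => by rw [Pi.add_apply, hf.1 w hw, hg.1 w hw, add_zero], ?_⟩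
      simp only [Pi.add_apply]
      rw [Finset.sum_add_distrib, hf.2, hg.2, add_zero]
    | smul c f _ hf =>
      refine ⟨fun w hw => by rw [Pi.smul_apply, hf.1 w hw, smul_zero], ?_⟩
      simp only [Pi.smul_apply]
      rw [← Finset.smul_sum, hf.2, smul_zero]
  let R : (V → ℚ) →ₗ[ℚ] ({w // w ∈ N.erase w0} → ℚ) :=
    LinearMap.pi (fun w => LinearMap.proj w.1)
  have h2 : Function.Injective (R.comp (Submodule.subtype (sp ℚ (vec a b) S))) := by
    rw [← LinearMap.ker_eq_bot, LinearMap.ker_eq_bot']
    rintro ⟨f, hf⟩ h0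
    obtain ⟨h3, h4⟩ := h1 f hf
    have h5 : ∀ w ∈ N.erase w0, f w = 0 := by
      intro w hw
      exact congrFun h0 ⟨w, hw⟩
    have h6 : f w0 = 0 := by
      rw [← Finset.add_sum_erase N f hw0, Finset.sum_eq_zero h5, add_zero] at h4
      exact h4
    apply Subtype.ext
    show f = 0
    funext w
    by_cases hw : w ∈ N
    · by_cases hw' : w = w0
      · rw [hw']; exact h6
      · exact h5 w (mem_erase.2 ⟨hw', hw⟩)
    · exact h3 w hw
  have h3 := LinearMap.finrank_le_finrank_of_injective h2
  rw [Module.finrank_fintype_fun_eq_card, Fintype.card_coe, card_erase_of_mem hw0] at h3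
  have h4 : 0 < N.card := card_pos.2 ⟨w0, hw0⟩
  unfold rk
  omega

end Pool.Agent.K4H79.OC
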